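import Pool.Agent.Helper5.SM.Marg

/-!
# Project SM, block PI: the probability of no conflict, and a lower bound for the entropy
-/

set_option autoImplicit false

open MeasureTheory Set Filter Topology

namespace Pool.Agent.Helper63.SM

variable {X : Type*} [MeasurableSpace X] {μ : Measure X} [IsProbabilityMeasure μ]
  {R : X → X → Prop} {k : ℕ} {f : (Fin k → X) → ℝ}

private lemma mp_comp4 (μ : Measure X) [IsProbabilityMeasure μ] {k n : ℕ} (f : Fin k → Fin n)
    (hf : Function.Injective f) :
    MeasurePreserving (fun x : Fin n → X => x ∘ f) (Measure.pi fun _ : Fin n => μ)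
      (Measure.pi fun _ : Fin k => μ) := by
  classical
  have hm : Measurable (fun x : Fin n → X => x ∘ f) :=
    measurable_pi_lambda _ fun j => measurable_pi_apply (f j)
  refine ⟨hm, ?_⟩
  symm
  apply Measure.pi_eq
  intro s hs
  rw [Measure.map_apply hm (MeasurableSet.univ_pi hs)]
  set t : Fin n → Set X := fun i => if h : ∃ j, f j = i then s h.choose else Set.univ with ht
  have htf : ∀ j, t (f j) = s j := by
    intro j
    have h : ∃ j', f j' = f j := ⟨j, rfl⟩
    simp only [ht, dif_pos h]
    rw [hf h.choose_spec]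
  have e : (fun x : Fin n → X => x ∘ f) ⁻¹' Set.univ.pi s = Set.univ.pi t := by
    ext x
    simp only [Set.mem_preimage, Set.mem_univ_pi, Function.comp_apply]
    constructor
    · intro h i
      by_cases hi : ∃ j, f j = i
      · obtain ⟨j, rfl⟩ := hi
        rw [htf]; exact h j
      · simp only [ht, dif_neg hi]; trivial
    · intro h j
      have := h (f j)
      rwa [htf] at this
  rw [e, Measure.pi_pi]
  have h1 : ∏ i, μ (t i) = ∏ i ∈ Finset.univ.image f, μ (t i) := by
    symm
    apply Finset.prod_subset (Finset.subset_univ _)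
    intro i _ hi
    have hne : ¬ ∃ j, f j = i := by
      rintro ⟨j, rfl⟩
      exact hi (Finset.mem_image_of_mem f (Finset.mem_univ j))
    simp only [ht, dif_neg hne, measure_univ]
  rw [h1, Finset.prod_image fun a _ b _ h => hf h]
  exact Finset.prod_congr rfl fun j _ => by rw [htf]

omit [IsProbabilityMeasure μ] in
theorem indS_meas4 (hR : MeasurableSet {p : X × X | R p.1 p.2}) (S : Finset (Fin k)) :
    MeasurableSet (IndS R S) := by
  have e : IndS R S = ⋂ i : Fin k, ⋂ j : Fin k,
      {x : Fin k → X | i ∈ S → j ∈ S → i ≠ j → ¬ R (x i) (x j)} := by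
    ext x
    simp only [IndS, mem_iInter, mem_ofPred_eq]
    exact ⟨fun h i j hi hj => h i hi j hj, fun h i hi j hj => h i j hi hj⟩
  rw [e]
  refine MeasurableSet.iInter fun i => MeasurableSet.iInter fun j => ?_
  by_cases h : i ∈ S ∧ j ∈ S ∧ i ≠ j
  · have h1 : MeasurableSet ((fun x : Fin k → X => (x i, x j)) ⁻¹' {p : X × X | R p.1 p.2}) :=
      ((measurable_pi_apply i).prodMk (measurable_pi_apply j)) hR
    have e2 : {x : Fin k → X | i ∈ S → j ∈ S → i ≠ j → ¬ R (x i) (x j)} =
        ((fun x : Fin k → X => (x i, x j)) ⁻¹' {p : X × X | R p.1 p.2})ᶜ := by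
      ext x
      simp only [mem_ofPred_eq, mem_compl_iff, mem_preimage]
      exact ⟨fun hx => hx h.1 h.2.1 h.2.2, fun hx _ _ _ => hx⟩
    rw [e2]
    exact h1.compl
  · have e2 : {x : Fin k → X | i ∈ S → j ∈ S → i ≠ j → ¬ R (x i) (x j)} = Set.univ := by
      ext x
      simp only [mem_ofPred_eq, mem_univ, iff_true]
      exact fun h1 h2 h3 => absurd ⟨h1, h2, h3⟩ h
    rw [e2]
    exact MeasurableSet.univ

theorem indS_prob (hR : MeasurableSet {p : X × X | R p.1 p.2}) (S : Finset (Fin k)) :
    (Measure.pi fun _ : Fin k => μ).real (IndS R S) = pr μ R S.card := by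
  set e : Fin S.card ≃o S := S.orderIsoOfFin rfl with he
  have hinj : Function.Injective fun j : Fin S.card => ((e j : S) : Fin k) := fun a b h =>
    e.injective (Subtype.ext h)
  have hmp := mp_comp4 μ _ hinj
  have hA : MeasurableSet {x : Fin S.card → X | ∀ a b, a ≠ b → ¬ R (x a) (x b)} := by
    have h1 := indS_meas4 hR (Finset.univ : Finset (Fin S.card))
    have e1 : IndS R (Finset.univ : Finset (Fin S.card)) = {x : Fin S.card → X | ∀ a b, a ≠ b → ¬ R (x a) (x b)} := by
      ext x
      simp only [IndS, mem_ofPred_eq, Finset.mem_univ, true_implies]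
    rwa [e1] at h1
  have hpre : (fun x : Fin k → X => x ∘ fun j : Fin S.card => ((e j : S) : Fin k)) ⁻¹'
      {x : Fin S.card → X | ∀ a b, a ≠ b → ¬ R (x a) (x b)} = IndS R S := by
    ext x
    simp only [mem_preimage, mem_ofPred_eq, Function.comp_apply, IndS]
    constructor
    · intro h i hi j hj hij
      have h1 := h (e.symm ⟨i, hi⟩) (e.symm ⟨j, hj⟩) fun h2 => hij (by
        have h3 := e.symm.injective h2
        exact congrArg Subtype.val h3)
      simpa only [OrderIso.apply_symm_apply] using h1
    · intro h a b hab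
      exact h _ (e a).2 _ (e b).2 fun h2 => hab (hinj h2)
  unfold pr
  rw [← hpre, Measure.real, Measure.real, hmp.measure_preimage hA.nullMeasurableSet]

omit [IsProbabilityMeasure μ] in
/-- the marginal vanishes outside the tuples without conflict in `S` -/
theorem mg_supp4 (hs : ∀ x, f x ≠ 0 → x ∈ IndS R Finset.univ) (S : Finset (Fin k)) (x : Fin k → X)
    (hx : mg μ S f x ≠ 0) : x ∈ IndS R S := by
  by_contra hcon
  refine hx ?_
  unfold mg
  have h1 : ∀ y, f (S.piecewise x y) = 0 := by
    intro y
    by_contra hne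
    refine hcon fun i hi j hj hij => ?_
    have h2 := hs _ hne i (Finset.mem_univ _) j (Finset.mem_univ _) hij
    simpa only [Finset.piecewise, if_pos hi, if_pos hj] using h2
  simp_rw [h1]
  exact integral_zero _ _

/-- bounded densities have integrable entropy -/
theorem dens_log_int4 {F : (Fin k → X) → ℝ} (hF : Dens μ F) :
    Integrable (fun x => F x * Real.log (F x)) (Measure.pi fun _ : Fin k => μ) := by
  obtain ⟨C, hC⟩ := hF.bdd
  obtain ⟨B, hB⟩ := (isCompact_Icc (a := (0 : ℝ)) (b := C)).exists_bound_of_continuousOn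
    (f := fun x => x * Real.log x) Real.continuous_mul_log.continuousOn
  refine int_bdd (hF.meas.mul (Real.measurable_log.comp hF.meas)) (C := B) fun x => ?_
  exact hB (F x) ⟨hF.nonneg x, hC x⟩

theorem ent_ge (hR : MeasurableSet {p : X × X | R p.1 p.2}) (hf : Dens μ f)
    (hs : ∀ x, f x ≠ 0 → x ∈ IndS R Finset.univ) (S : Finset (Fin k)) :
    0 < pr μ R S.card ∧ -Real.log (pr μ R S.card) ≤ Ent μ S f := by
  have hD := mg_dens hf S
  set F := mg μ S f with hFdef
  have hsupp : ∀ x, F x ≠ 0 → x ∈ IndS R S := mg_supp4 hs S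
  have hmeas := indS_meas4 (R := R) hR S
  have hprob := indS_prob (μ := μ) hR S
  have hint := dens_int hD
  have hpos : 0 < pr μ R S.card := by
    rcases eq_or_lt_of_le (show 0 ≤ pr μ R S.card from by rw [← hprob]; exact measureReal_nonneg) with h0 | h0
    · exfalso
      have h1 : ∫ x in IndS R S, F x ∂(Measure.pi fun _ : Fin k => μ) = ∫ x, F x ∂(Measure.pi fun _ : Fin k => μ) :=
        setIntegral_eq_integral_of_forall_compl_eq_zero fun x hx => by
          by_contra hne
          exact hx (hsupp x hne)
      have h2 : (Measure.pi fun _ : Fin k => μ) (IndS R S) = 0 := by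
        have h3 : (Measure.pi fun _ : Fin k => μ).real (IndS R S) = 0 := by rw [hprob, ← h0]
        exact (measureReal_eq_zero_iff (by finiteness)).1 h3
      rw [setIntegral_measure_zero _ h2, hD.int] at h1
      exact zero_ne_one h1
    · exact h0
  refine ⟨hpos, ?_⟩
  set P := pr μ R S.card with hP
  have hind : Integrable (fun x => (IndS R S).indicator (fun _ => (1 : ℝ)) x / P) (Measure.pi fun _ : Fin k => μ) :=
    ((integrable_const (1 : ℝ)).indicator hmeas).div_const P
  have hlog := dens_log_int4 hD
  have hpt : ∀ x, 0 ≤ F x * Real.log (F x) + F x * Real.log P + (IndS R S).indicator (fun _ => (1 : ℝ)) x / P - F x := by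
    intro x
    rcases eq_or_lt_of_le (hD.nonneg x) with h0 | h0
    · rw [← h0, zero_mul, zero_mul, zero_add, zero_add, sub_zero]
      exact div_nonneg (indicator_nonneg (fun _ _ => zero_le_one) x) hpos.le
    · have hx : x ∈ IndS R S := hsupp x h0.ne'
      rw [indicator_of_mem hx]
      have h1 : 0 < 1 / (P * F x) := by positivity
      have h2 := Real.log_le_sub_one_of_pos h1
      rw [one_div, Real.log_inv, Real.log_mul hpos.ne' h0.ne'] at h2
      have h3 : F x * -(Real.log P + Real.log (F x)) ≤ F x * ((P * F x)⁻¹ - 1) :=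
        mul_le_mul_of_nonneg_left h2 h0.le
      have h4 : F x * ((P * F x)⁻¹ - 1) = 1 / P - F x := by
        field_simp
      rw [h4] at h3
      linarith
  have h5 : 0 ≤ ∫ x, (F x * Real.log (F x) + F x * Real.log P + (IndS R S).indicator (fun _ => (1 : ℝ)) x / P - F x)
      ∂(Measure.pi fun _ : Fin k => μ) := integral_nonneg fun x => hpt x
  have h6 : ∫ x, (F x * Real.log (F x) + F x * Real.log P + (IndS R S).indicator (fun _ => (1 : ℝ)) x / P - F x)
      ∂(Measure.pi fun _ : Fin k => μ) = Ent μ S f + Real.log P + 1 - 1 := by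
    have i1 : Integrable (fun x => F x * Real.log P) (Measure.pi fun _ : Fin k => μ) := hint.mul_const _
    have i2 : Integrable (fun x => F x * Real.log (F x) + F x * Real.log P) (Measure.pi fun _ : Fin k => μ) := hlog.add i1
    have i3 : Integrable (fun x => F x * Real.log (F x) + F x * Real.log P +
      (IndS R S).indicator (fun _ => (1 : ℝ)) x / P) (Measure.pi fun _ : Fin k => μ) := i2.add hind
    rw [integral_sub i3 hint, integral_add i2 hind, integral_add hlog i1, integral_mul_const, hD.int, integral_div,
      integral_indicator_const _ hmeas, hprob, one_mul, smul_eq_mul, mul_one, div_self hpos.ne']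
    rfl
  rw [h6] at h5
  linarith

end Pool.Agent.Helper63.SM
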